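import Mathlib
import Pool.Agent.H5.Shap
import Pool.Agent.H5L.TDef
import Pool.Agent.H5L.T2

/-!
A group of homological dimension at most one has no nontrivial finitely generated subgroup with
property (T).
-/

namespace Pool.Agent.Held5c.PropertyT

/-- Let `G` be a group with `H_n(G, A) = 0` for all `n ≥ 2` and all `A`. Then no nontrivial
finitely generated subgroup of `G` has Kazhdan's property (T). -/
theorem result (G : Type) [Group G]
    (hG : ∀ (A : Rep ℤ G) (n : ℕ), 2 ≤ n → Subsingleton (groupHomology A n))
    (B : Subgroup G) (hne : B ≠ ⊥) : ¬ H5L.PropertyT B := by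
  refine H5L.not_T (H5.homology_subgroup (fun A => hG A 2 le_rfl) B) ?_
  obtain ⟨b, hb⟩ := Subgroup.ne_bot_iff_exists_ne_one.1 hne
  exact ⟨b, hb⟩

end Pool.Agent.Held5c.PropertyT
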